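import Pool.Agent.H71.ASF.Stmts

/-!
# Project ASF (MP_8ae111_al): module WPH
-/

namespace ASF

universe u

namespace WPH

variable {A : Type u} [NonUnitalNonAssocRing A] [Alt A]

theorem R1 {b c : A} (h : b * c = 0) (x w : A) : (x * b) * (c * w) = -((w * b) * (c * x)) := by
  have h1 := moufang_mid_lin x b c w
  rw [h, mul_zero, zero_mul, mul_zero, zero_mul, add_zero] at h1
  exact eq_neg_of_add_eq_zero_left h1

theorem R4 {b1 b2 b3 : A} (h12 : b1 * b2 = 0) (h23 : b2 * b3 = 0) (x y : A) :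
    ((b3 * x) * b1) * (b2 * y) = (y * b1) * dl b2 b3 x := by
  rw [R1 h12, ← dl_l h23, dl_swap b2 b3, mul_neg, neg_neg]

theorem key [NT A] (h2 : KE2Stmt.{u}) {b1 b2 b3 : A} (h : N3 b1 b2 b3) (x y : A) :
    (y * b1) * dl b3 b2 x - (y * b2) * dl b3 b1 x =
      cm b2 x * dl b3 b1 y - cm b1 x * dl b3 b2 y - 2 • ((b3 * y) * dl b1 b2 x) := by
  have e1 := (h2 A b1 b2 (by rw [cm, h.h12, h.h21, sub_zero]) x (b3 * y)).1
  rw [asc_s12 (cm b2 x) b1, asc_s12 (cm b1 x) b2] at e1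
  simp only [asc] at e1
  have e2 : cm b2 x * b1 = (b2 * x) * b1 + dl b1 b2 x := by
    rw [dl_swap b2 b1, dl_r h.h21, cm, sub_mul]
    abel
  have e3 : cm b1 x * b2 = (b1 * x) * b2 - dl b1 b2 x := by
    rw [dl_r h.h12, cm, sub_mul]
  have e4 : b1 * (b3 * y) = dl b3 b1 y := (dl_l h.h13 y).symm
  have e5 : b2 * (b3 * y) = dl b3 b2 y := (dl_l h.h23 y).symm
  rw [e2, e3, e4, e5, add_mul, sub_mul, R4 h.h13 h.h32, R4 h.h23 h.h31] at e1
  simp only [cm] at e1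
  linear_combination (norm := (simp only [cm]; abel)) (-1 : ℤ) • e1

end WPH

open WPH in
theorem wph (h1 : KE2Stmt.{u}) : WPHStmt.{u} := by
  intro A _ _ _ b1 b2 b3 h x y
  have k1 := key h1 h x y
  have k2 := key h1 h.cyc x y
  have k3 := key h1 h.cyc.cyc x y
  refine e2 ?_
  have s1 : ∀ z, dl b3 b2 z = -dl b2 b3 z := fun z => dl_swap _ _ _
  have s2 : ∀ z, dl b1 b3 z = -dl b3 b1 z := fun z => dl_swap _ _ _
  have s3 : ∀ z, dl b2 b1 z = -dl b1 b2 z := fun z => dl_swap _ _ _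
  simp only [s1, s2, s3, mul_neg] at k1 k2 k3
  simp only [cm, sub_mul] at k1 k2 k3 ⊢
  linear_combination (norm := abel) k1 + k2 + k3

end ASF
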